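import Mathlib

set_option autoImplicit false
open scoped Pointwise

namespace Pool.Agent.Results.MP_9865ab_al.OnePartition

universe u

open Cardinal Pointwise

/-- `A` is left and right `κ`-large. -/
def Large {G : Type u} [Group G] (κ : Cardinal.{u}) (A : Set G) : Prop :=
  (∃ F : Set G, #F < κ ∧ F * A = Set.univ) ∧ (∃ F : Set G, #F < κ ∧ A * F = Set.univ)

lemma net {G : Type u} [Group G] (B : Finset G) (hB : B.Nonempty) : ∃ X : Set G,
    (∀ x ∈ X, ∀ y ∈ X, ∀ b ∈ B, ∀ c ∈ B, b * x = c * y → x = y) ∧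
    ∀ g, ∃ x ∈ X, ∃ b ∈ B, ∃ c ∈ B, b * x = c * g := by
  obtain ⟨X, hX⟩ := zorn_subset
    {X : Set G | ∀ x ∈ X, ∀ y ∈ X, ∀ b ∈ B, ∀ c ∈ B, b * x = c * y → x = y} (by
      intro C hC hch
      refine ⟨⋃₀ C, ?_, fun s hs => Set.subset_sUnion_of_mem hs⟩
      rintro x ⟨s, hs, hx⟩ y ⟨t, ht, hy⟩
      rcases hch.total hs ht with h | h
      · exact hC ht x (h hx) y hy
      · exact hC hs x hx y (h hy))
  refine ⟨X, hX.prop, fun g => ?_⟩
  by_contra h
  push Not at h
  have h1 : insert g X ∈ {X : Set G | ∀ x ∈ X, ∀ y ∈ X, ∀ b ∈ B, ∀ c ∈ B, b * x = c * y → x = y} := by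
    rintro x (rfl | hx) y (rfl | hy) b hb c hc e
    · rfl
    · exact absurd e.symm (h y hy c hc b hb)
    · exact absurd e (h x hx b hb c hc)
    · exact hX.prop x hx y hy b hb c hc e
  have h2 : g ∈ X := hX.le_of_ge h1 (Set.subset_insert _ _) (Set.mem_insert _ _)
  obtain ⟨b, hb⟩ := hB
  exact h g h2 b hb b hb rfl

lemma geo (T : Finset (ℕ × Bool)) : ∑ k ∈ T, (1 / 2 : ℝ) ^ (k.1 + 2) ≤ 1 := by
  obtain ⟨N, hN⟩ : ∃ N, ∀ k ∈ T, k.1 < N := ⟨T.sup Prod.fst + 1, fun k hk =>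
    Nat.lt_succ_of_le (Finset.le_sup (f := Prod.fst) hk)⟩
  calc _ ≤ ∑ k ∈ Finset.range N ×ˢ (Finset.univ : Finset Bool), (1 / 2 : ℝ) ^ (k.1 + 2) :=
        Finset.sum_le_sum_of_subset_of_nonneg (fun k hk => by simp [hN k hk])
          (fun _ _ _ => by positivity)
    _ = (∑ n ∈ Finset.range N, (1 / 2 : ℝ) ^ n) / 2 := by
        rw [Finset.sum_product, Finset.sum_div]
        refine Finset.sum_congr rfl fun n _ => ?_
        simp [pow_add]; ring
    _ ≤ 1 := by have := sum_geometric_two_le N; linarith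

lemma countable_case {G : Type u} [Group G] [Infinite G] : ∃ χ : G → ℕ, ∀ n, ∃ F : Set G, F.Finite ∧
    ∀ g, (∃ f ∈ F, χ (f * g) = n) ∧ ∃ f ∈ F, χ (g * f⁻¹) = n := by
  classical
  choose B hB using fun n : ℕ => Infinite.exists_subset_card_eq G (2 ^ (n + 2))
  have hne : ∀ n, (B n).Nonempty := fun n => by rw [← Finset.card_pos, hB]; positivity
  choose X hX1 hX2 using fun n => net (B n) (hne n)
  let ι := {z : (ℕ × Bool) × G // z.2 ∈ X z.1.1}
  let σ : Bool → G → G := fun s y => if s then y else y⁻¹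
  have hσ : ∀ s, Function.Injective (σ s) := by
    intro s; cases s
    · exact inv_injective
    · exact Function.injective_id
  let t : ι → Finset G := fun z => (B z.1.1.1).image fun b => σ z.1.1.2 (b * z.1.2)
  have hcard : ∀ z, (t z).card = 2 ^ (z.1.1.1 + 2) := fun z => by
    exact (Finset.card_image_of_injective _ ((hσ _).comp (mul_left_injective _))).trans (hB _)
  obtain ⟨p, hp1, hp2⟩ := (Finset.all_card_le_biUnion_card_iff_exists_injective t).mp (by
    intro s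
    have h1 : ∀ k : ℕ × Bool, ((s.filter fun z => z.1.1 = k).card : ℝ) ≤
        (s.biUnion t).card * (1 / 2 : ℝ) ^ (k.1 + 2) := by
      intro k
      have h2 : ((s.filter fun z => z.1.1 = k).biUnion t).card =
          (s.filter fun z => z.1.1 = k).card * 2 ^ (k.1 + 2) := by
        rw [Finset.card_biUnion, Finset.sum_congr rfl (fun z hz => show (t z).card = 2 ^ (k.1 + 2) by
          rw [hcard, (Finset.mem_filter.mp hz).2])]
        · simp
        · intro z hz w hw hzw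
          have e1 := (Finset.mem_filter.mp hz).2
          have e2 := (Finset.mem_filter.mp hw).2
          rw [Function.onFun, Finset.disjoint_left]
          intro a ha1 ha2
          obtain ⟨b, hb, rfl⟩ := Finset.mem_image.mp ha1
          obtain ⟨c, hc, e⟩ := Finset.mem_image.mp ha2
          rw [e1] at hb
          rw [e2] at hc
          rw [e1, e2] at e
          have hz2 := z.2
          have hw2 := w.2
          rw [e1] at hz2
          rw [e2] at hw2
          exact hzw (Subtype.ext (Prod.ext (e1.trans e2.symm)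
            (hX1 _ _ hw2 _ hz2 c hc b hb (hσ _ e)).symm))
      have h3 := Finset.card_le_card (Finset.biUnion_subset_biUnion_of_subset_left t
        (Finset.filter_subset (fun z : ι => z.1.1 = k) s))
      rw [h2] at h3
      have h4 : ((s.filter fun z => z.1.1 = k).card : ℝ) * 2 ^ (k.1 + 2) ≤ (s.biUnion t).card := by
        exact_mod_cast h3
      rw [one_div, inv_pow, ← div_eq_mul_inv, le_div_iff₀ (by positivity)]
      exact h4
    have h5 := Finset.card_eq_sum_card_fiberwise (f := fun z : ι => z.1.1) (s := s)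
      (t := s.image fun z => z.1.1) (fun z hz => Finset.mem_coe.mpr (Finset.mem_image_of_mem _ hz))
    have h6 : (s.card : ℝ) ≤ (s.biUnion t).card := by
      rw [h5]
      push_cast
      refine (Finset.sum_le_sum fun k _ => h1 k).trans ?_
      rw [← Finset.mul_sum]
      exact mul_le_of_le_one_right (by positivity) (geo _)
    exact_mod_cast h6)
  let χ : G → ℕ := fun g => if h : ∃ z, p z = g then h.choose.1.1.1 else 0
  have hχ : ∀ z, χ (p z) = z.1.1.1 := by
    intro z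
    have h : ∃ w, p w = p z := ⟨z, rfl⟩
    simp only [χ, dif_pos h]
    rw [hp1 h.choose_spec]
  have key : ∀ n s g, ∃ f ∈ (B n : Set G) * (B n : Set G)⁻¹ * (B n : Set G), χ (σ s (f * g)) = n := by
    intro n s g
    obtain ⟨x, hx, b, hb, c, hc, e⟩ := hX2 n g
    obtain ⟨d, hd, e'⟩ := Finset.mem_image.mp (hp2 ⟨((n, s), x), hx⟩)
    refine ⟨d * b⁻¹ * c, Set.mul_mem_mul (Set.mul_mem_mul hd (Set.inv_mem_inv.mpr hb)) hc, ?_⟩
    rw [mul_assoc, ← e, mul_assoc, inv_mul_cancel_left]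
    exact (congrArg χ e').trans (hχ _)
  refine ⟨χ, fun n => ⟨_, (((B n).finite_toSet.mul (B n).finite_toSet.inv).mul
    (B n).finite_toSet), fun g => ⟨key n true g, ?_⟩⟩⟩
  obtain ⟨f, hf, e⟩ := key n false g⁻¹
  exact ⟨f, hf, by simpa [σ] using e⟩

lemma card_cl {G : Type u} [Group G] (S : Set G) : #(Subgroup.closure S) ≤ max #S ℵ₀ := by
  rcases S.eq_empty_or_nonempty with rfl | h
  · rw [Subgroup.closure_empty]
    exact le_max_of_le_right mk_le_aleph0
  · haveI := h.to_subtype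
    rw [FreeGroup.closure_eq_range, ← mk_freeGroup]
    exact mk_range_le

lemma one_side {G ι : Type u} [Group G] [LinearOrder ι] [WellFoundedLT ι] [Nonempty ι]
    (κ : Cardinal.{u}) (hκ : ℵ₀ < κ) (hG : κ ≤ #G) (hι : ∀ a : ι, #(Set.Iio a) < κ)
    (F : Set G) (hF : F.Finite) : ∃ c : G → ι, (∀ f ∈ F, ∀ g, c (f * g) = c g) ∧
      ∀ a, ∃ K : Subgroup G, #K ≤ max #(Set.Iio a) ℵ₀ ∧ F ⊆ K ∧ ∀ g, ∃ k ∈ K, c (k * g) = a := by
  classical
  have hcl : ∀ S : Set G, #S < κ → #(Subgroup.closure (F ∪ S)) < κ := by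
    intro S hS
    refine (card_cl _).trans_lt (max_lt ?_ hκ)
    exact (mk_union_le _ _).trans_lt (add_lt_of_lt hκ.le (hF.lt_aleph0.trans hκ) hS)
  have hex : ∀ S : Set G, ∃ y : G, #S < κ → y ∉ Subgroup.closure (F ∪ S) := by
    intro S
    by_contra h
    push Not at h
    have h1 : Subgroup.closure (F ∪ S) = ⊤ := eq_top_iff.mpr fun y _ => (h y).2
    have h2 := hcl S (h 1).1
    rw [h1, mk_congr Subgroup.topEquiv.toEquiv] at h2
    exact absurd hG (not_le.mpr h2)
  choose nx hnx using hex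
  let x : ι → G := (wellFounded_lt (α := ι)).fix fun a ih => nx {y | ∃ b, ∃ h : b < a, ih b h = y}
  have hx : ∀ a, x a = nx (x '' Set.Iio a) := by
    intro a
    have := (wellFounded_lt (α := ι)).fix_eq
      (fun a (ih : ∀ b, b < a → G) => nx {y | ∃ b, ∃ h : b < a, ih b h = y}) a
    refine this.trans (congrArg nx ?_)
    ext y
    simp only [Set.mem_setOf_eq, Set.mem_image, Set.mem_Iio, exists_prop]
    rfl
  have hIio : ∀ a, #(x '' Set.Iio a) < κ := fun a => mk_image_le.trans_lt (hι a)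
  have hIic : ∀ a, #(x '' Set.Iic a) ≤ max #(Set.Iio a) ℵ₀ := fun a => by
    refine mk_image_le.trans ?_
    rw [← Set.Iio_insert]
    exact mk_insert_le.trans (add_le_of_le (le_max_right _ _) (le_max_left _ _)
      (one_le_aleph0.trans (le_max_right _ _)))
  have hcl' : ∀ a, #(Subgroup.closure (F ∪ x '' Set.Iic a)) ≤ max #(Set.Iio a) ℵ₀ := fun a => by
    refine (card_cl _).trans (max_le ?_ (le_max_right _ _))
    exact (mk_union_le _ _).trans (add_le_of_le (le_max_right _ _)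
      (hF.lt_aleph0.le.trans (le_max_right _ _)) (hIic a))
  have wf : WellFounded (WellOrderingRel : G → G → Prop) := IsWellFounded.wf
  let m : Subgroup G → G → G := fun H g => wf.min {y | y * g⁻¹ ∈ H} ⟨g, by simp⟩
  have m1 : ∀ H g, m H g * g⁻¹ ∈ H := fun H g => wf.min_mem {y | y * g⁻¹ ∈ H} _
  have m2 : ∀ (H : Subgroup G) g y, y * g⁻¹ ∈ H → ¬ WellOrderingRel y (m H g) :=
    fun H g y hy => wf.not_lt_min {y | y * g⁻¹ ∈ H} hy
  have m3 : ∀ (H : Subgroup G) h g, h ∈ H → m H (h * g) = m H g := by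
    intro H h g hh
    have : {y | y * (h * g)⁻¹ ∈ H} = {y | y * g⁻¹ ∈ H} := by
      ext y
      simp only [Set.mem_setOf_eq, mul_inv_rev, ← mul_assoc]
      exact H.mul_mem_cancel_right (H.inv_mem hh)
    simp only [m, this]
  have m4 : ∀ (H H' : Subgroup G) g, H ≤ H' → m H (m H' g) = m H' g := by
    intro H H' g hle
    rcases trichotomous_of WellOrderingRel (m H (m H' g)) (m H' g) with h | h | h
    · refine absurd h (m2 H' g _ ?_)
      have := H'.mul_mem (hle (m1 H (m H' g))) (m1 H' g)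
      simpa [mul_assoc] using this
    · exact h
    · exact absurd h (m2 H _ _ (by simp))
  let K : ι → Subgroup G := fun a => Subgroup.closure (F ∪ x '' Set.Iic a)
  let K0 : Subgroup G := Subgroup.closure F
  have h0 : ∀ a, K0 ≤ K a := fun a => Subgroup.closure_mono Set.subset_union_left
  let c : G → ι := fun g => if h : {a | m (K a) g ≠ m K0 g}.Nonempty then
    wellFounded_lt.min _ h else Classical.arbitrary ι
  refine ⟨c, fun f hf g => ?_, fun a => ⟨K a, hcl' a,
    fun f hf => Subgroup.subset_closure (Or.inl hf), fun g => ?_⟩⟩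
  · have h1 : f ∈ K0 := Subgroup.subset_closure hf
    have : {a | m (K a) (f * g) ≠ m K0 (f * g)} = {a | m (K a) g ≠ m K0 g} := by
      ext a
      simp only [Set.mem_setOf_eq, m3 _ _ _ h1, m3 _ _ _ (h0 a h1)]
    simp only [c, this]
  · let L : Subgroup G := Subgroup.closure (F ∪ x '' Set.Iio a)
    have hL : L ≤ K a := Subgroup.closure_mono
      (Set.union_subset_union_right _ (Set.image_mono Set.Iio_subset_Iic_self))
    have hxa : x a ∈ K a := Subgroup.subset_closure (Or.inr ⟨a, le_rfl, rfl⟩)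
    have hxL : x a ∉ L := by rw [hx a]; exact hnx _ (hIio a)
    set g' := m L (x a * m (K a) g) with hg'
    have e1 : g' * g⁻¹ ∈ K a := by
      have := (K a).mul_mem ((K a).mul_mem (hL (m1 L (x a * m (K a) g))) hxa) (m1 (K a) g)
      simpa [mul_assoc] using this
    have e2 : m (K a) g' = m (K a) g := by
      rw [← m3 (K a) _ g e1]; simp
    have e3 : m K0 g' = g' := m4 K0 L _ (Subgroup.closure_mono Set.subset_union_left)
    have e4 : m (K a) g' ≠ m K0 g' := by
      rw [e2, e3]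
      intro h
      apply hxL
      have := m1 L (x a * m (K a) g)
      rw [← hg', ← h] at this
      simpa using this
    refine ⟨g' * g⁻¹, e1, ?_⟩
    rw [inv_mul_cancel_right]
    have hne : {a | m (K a) g' ≠ m K0 g'}.Nonempty := ⟨a, e4⟩
    simp only [c, dif_pos hne]
    refine le_antisymm (WellFounded.min_le _ e4) (not_lt.mp fun hlt => ?_)
    apply wellFounded_lt.min_mem _ hne
    refine Eq.trans ?_ e3.symm
    exact m4 _ L _ (Subgroup.closure_mono (Set.union_subset_union_right _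
      (Set.image_mono fun b hb => lt_of_le_of_lt hb hlt)))


/-- The pointwise form: both translates meet the cell. -/
def Hits {G ι : Type u} [Group G] (χ : G → ι) (a : ι) (F : Set G) : Prop :=
  ∀ g, (∃ f ∈ F, χ (f * g) = a) ∧ ∃ f ∈ F, χ (g * f⁻¹) = a

lemma Hits.large {G ι : Type u} [Group G] {χ : G → ι} {a : ι} {F : Set G} (h : Hits χ a F)
    {κ : Cardinal.{u}} (hF : #F < κ) : Large κ (χ ⁻¹' {a}) := by
  refine ⟨⟨F⁻¹, by rwa [mk_inv], Set.eq_univ_of_forall fun g => ?_⟩,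
    ⟨F, hF, Set.eq_univ_of_forall fun g => ?_⟩⟩
  · obtain ⟨f, hf, e⟩ := (h g).1
    exact ⟨f⁻¹, Set.inv_mem_inv.mpr hf, f * g, e, by simp⟩
  · obtain ⟨f, hf, e⟩ := (h g).2
    exact ⟨g * f⁻¹, e, f, hf, by simp⟩

lemma fin {G ι : Type u} [Group G] (κ : Cardinal.{u}) (hι : #ι = κ) (χ : G → ι)
    (h : ∀ a, ∃ F : Set G, #F < κ ∧ Hits χ a F) :
    Setoid.IsPartition (Set.range fun a => χ ⁻¹' {a}) ∧ #(Set.range fun a => χ ⁻¹' {a}) = κ ∧
      ∀ A ∈ Set.range fun a => χ ⁻¹' {a}, Large κ A := by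
  have hs : Function.Surjective χ := fun a => by
    obtain ⟨F, -, h1⟩ := h a
    obtain ⟨f, -, e⟩ := (h1 1).1
    exact ⟨_, e⟩
  refine ⟨⟨?_, fun g => ⟨χ ⁻¹' {χ g}, ⟨⟨_, rfl⟩, rfl⟩, ?_⟩⟩, ?_, ?_⟩
  · rintro ⟨a, ha⟩
    obtain ⟨g, rfl⟩ := hs a
    have : g ∈ χ ⁻¹' {χ g} := rfl
    simp only at ha
    rw [ha] at this
    exact this
  · rintro _ ⟨⟨a, rfl⟩, ha⟩
    rw [show χ g = a from ha]
  · rw [mk_range_eq _ (fun a b hab => Set.singleton_injective (hs.preimage_injective hab)), hι]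
  · rintro _ ⟨a, rfl⟩
    obtain ⟨F, hF, h1⟩ := h a
    exact h1.large hF

lemma finite_initial (ι : Type u) [LinearOrder ι] : {a : ι | (Set.Iio a).Finite}.Countable := by
  have : Set.InjOn (fun a : ι => (Set.Iio a).ncard) {a : ι | (Set.Iio a).Finite} := by
    intro a ha b hb hab
    simp only at hab
    rcases lt_trichotomy a b with h | h | h
    · have h1 : Set.Iio a ⊂ Set.Iio b :=
        ⟨Set.Iio_subset_Iio h.le, fun h2 => lt_irrefl a (h2 h)⟩
      have := Set.ncard_lt_ncard h1 hb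
      omega
    · exact h
    · have h1 : Set.Iio b ⊂ Set.Iio a :=
        ⟨Set.Iio_subset_Iio h.le, fun h2 => lt_irrefl b (h2 h)⟩
      have := Set.ncard_lt_ncard h1 ha
      omega
  exact Set.MapsTo.countable_of_injOn (fun a _ => Set.mem_univ _) this Set.countable_univ

theorem main (G : Type u) [Group G] [Infinite G] : ∃ χ : G → (#G).ord.ToType, ∀ a,
    ∃ F : Set G, (∀ κ : Cardinal.{u}, ℵ₀ ≤ κ → #(Set.Iio a) < κ → #F < κ) ∧ Hits χ a F := by
  classical
  obtain ⟨χ, hχ⟩ := countable_case (G := G)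
  obtain ⟨F0, hF0, k0⟩ := hχ 0
  obtain ⟨F1, hF1, k1⟩ := hχ 1
  have hne : Nonempty (#G).ord.ToType := by
    rw [← mk_ne_zero_iff, mk_ord_toType]; exact mk_ne_zero G
  have hfinne : {a : (#G).ord.ToType | (Set.Iio a).Finite}.Nonempty := by
    obtain ⟨a, -, ha⟩ := (wellFounded_lt (α := (#G).ord.ToType)).has_min Set.univ
      Set.univ_nonempty
    refine ⟨a, ?_⟩
    have : Set.Iio a = ∅ := Set.eq_empty_of_forall_notMem fun b hb => ha b (Set.mem_univ _) hb
    simp [this]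
  obtain ⟨e, he⟩ := (finite_initial (#G).ord.ToType).exists_eq_range hfinne
  obtain ⟨c, hc1, hc2⟩ : ∃ c : G → (#G).ord.ToType, (∀ f ∈ F0 ∪ F1, ∀ g, c (f * g) = c g) ∧
      ∀ a, ¬ (Set.Iio a).Finite → ∃ K : Subgroup G, #K ≤ max #(Set.Iio a) ℵ₀ ∧ F0 ∪ F1 ⊆ K ∧
        ∀ g, ∃ k ∈ K, c (k * g) = a := by
    by_cases hG : ℵ₀ < #G
    · obtain ⟨c, h1, h2⟩ := one_side (ι := (#G).ord.ToType) #G hG le_rfl
        (fun a => mk_Iio_ord_toType a) (F0 ∪ F1) (hF0.union hF1)
      exact ⟨c, h1, fun a _ => h2 a⟩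
    · refine ⟨fun _ => Classical.arbitrary _, fun _ _ _ => rfl, fun a ha => ?_⟩
      exfalso
      have h1 := mk_Iio_ord_toType a
      have h2 : #(Set.Iio a) < ℵ₀ := h1.trans_le (not_lt.1 hG)
      exact ha (lt_aleph0_iff_set_finite.1 h2)
  let θ : G → (#G).ord.ToType := fun g =>
    if χ g = 0 then c g else if χ g = 1 then c g⁻¹ else e (χ g - 2)
  refine ⟨θ, fun a => ?_⟩
  by_cases ha : (Set.Iio a).Finite
  · obtain ⟨n, rfl⟩ : a ∈ Set.range e := he ▸ ha
    obtain ⟨F, hF, hk⟩ := hχ (n + 2)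
    refine ⟨F, fun κ hκ _ => hF.lt_aleph0.trans_le hκ, fun g => ⟨?_, ?_⟩⟩
    · obtain ⟨f, hf, e1⟩ := (hk g).1
      exact ⟨f, hf, by simp [θ, e1]⟩
    · obtain ⟨f, hf, e1⟩ := (hk g).2
      exact ⟨f, hf, by simp [θ, e1]⟩
  · obtain ⟨K, hK1, hK2, hK3⟩ := hc2 a ha
    have ha2 : ℵ₀ ≤ #(Set.Iio a) := by
      rw [← not_lt, lt_aleph0_iff_set_finite]; exact ha
    refine ⟨K, fun κ _ hκ => (hK1.trans (by rw [max_eq_left ha2])).trans_lt hκ, fun g => ⟨?_, ?_⟩⟩
    · obtain ⟨k, hk, e⟩ := hK3 g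
      obtain ⟨f, hf, e'⟩ := (k0 (k * g)).1
      refine ⟨f * k, K.mul_mem (hK2 (Or.inl hf)) hk, ?_⟩
      simp only [θ, mul_assoc, e', if_true]
      rw [hc1 f (Or.inl hf), e]
    · obtain ⟨k, hk, e⟩ := hK3 g⁻¹
      obtain ⟨f, hf, e'⟩ := (k1 (g * k⁻¹)).2
      refine ⟨f * k, K.mul_mem (hK2 (Or.inr hf)) hk, ?_⟩
      simp only [θ, mul_inv_rev, ← mul_assoc, e', inv_inv]
      rw [if_neg one_ne_zero, if_pos trivial, mul_assoc, hc1 f (Or.inr hf), e]

/-- Every infinite group `G` has one partition, with cells indexed by the initial ordinal of `|G|`,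
that serves all infinite cardinals `κ ≤ |G|` at once: the cell of index `a` is left and right
`κ`-large for every infinite `κ` greater than the number of smaller indices, and for every
infinite `κ ≤ |G|` merging cells gives a partition into exactly `κ` cells, all of them left and
right `κ`-large. -/
theorem result (G : Type u) [Group G] [Infinite G] : ∃ χ : G → (#G).ord.ToType,
    (∀ a, ∀ κ : Cardinal.{u}, ℵ₀ ≤ κ → #(Set.Iio a) < κ → Large κ (χ ⁻¹' {a})) ∧
    ∀ κ : Cardinal.{u}, ℵ₀ ≤ κ → κ ≤ #G → ∃ P : Set (Set G), Setoid.IsPartition P ∧ #P = κ ∧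
      ∀ A ∈ P, Large κ A ∧ ∃ S : Set (#G).ord.ToType, A = χ ⁻¹' S := by
  classical
  obtain ⟨χ, hχ⟩ := main G
  refine ⟨χ, fun a κ h1 h2 => ?_, fun κ h1 h2 => ?_⟩
  · obtain ⟨F, h3, h4⟩ := hχ a
    exact h4.large (h3 κ h1 h2)
  · have hne : Nonempty κ.ord.ToType := by
      rw [← mk_ne_zero_iff, mk_ord_toType]; exact (aleph0_pos.trans_le h1).ne'
    let φ := Ordinal.initialSegToType (ord_le_ord.2 h2)
    let ρ : (#G).ord.ToType → κ.ord.ToType := Function.invFun φ
    have hρ : ∀ b, ρ (φ b) = b := Function.leftInverse_invFun φ.injective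
    obtain ⟨p1, p2, p3⟩ := fin κ (mk_ord_toType κ) (ρ ∘ χ) fun b => by
      obtain ⟨F, h3, h4⟩ := hχ (φ b)
      refine ⟨F, h3 κ h1 ?_, fun g => ?_⟩
      · rw [← φ.image_Iio]
        exact mk_image_le.trans_lt (mk_Iio_ord_toType b)
      · obtain ⟨⟨f, hf, e⟩, f', hf', e'⟩ := h4 g
        exact ⟨⟨f, hf, by simp [e, hρ]⟩, f', hf', by simp [e', hρ]⟩
    refine ⟨_, p1, p2, fun A hA => ⟨p3 A hA, ?_⟩⟩
    obtain ⟨b, rfl⟩ := hA
    exact ⟨ρ ⁻¹' {b}, rfl⟩

end Pool.Agent.Results.MP_9865ab_al.OnePartition
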